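import Pool.Agent.K6.H62.PR2.Stm2
import Pool.Agent.K6.H62.PR.FIN

set_option autoImplicit false

open Complex Filter Topology

namespace Pool.Agent.K6.H62.PR

namespace FIN2

theorem step {b : ℕ} (a₁ a : ℕ) (h : ¬ Low (a₁ : ZMod b) (a : ZMod b)) (K δ : ℝ) (hδ : δ < 1 / 2)
    (N : ℕ) :
    ∃ n : ℕ, N ≤ n ∧
        (((Finset.range (n + 1)).filter (fun p => p.Prime ∧ p ≡ a₁ [MOD b])).card : ℝ) +
          K * (n : ℝ) ^ δ <
        (((Finset.range (n + 1)).filter (fun p => p.Prime ∧ p ≡ a [MOD b])).card : ℝ) := by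
  by_contra hcon
  apply h
  have key : ∀ n, N ≤ n → 0 ≤ DD (cf (a₁ : ZMod b) (a : ZMod b)) n + K * (n : ℝ) ^ δ := by
    intro n hn
    rw [FIN.DD_cf]
    have h1 := fun hlt => hcon ⟨n, hn, hlt⟩
    have h2 := not_lt.1 h1
    linarith
  rcases le_or_gt 0 δ with hd | hd
  · exact ⟨K, δ, N, hd, hδ, key⟩
  · refine ⟨|K|, 0, max N 1, le_rfl, by norm_num, fun n hn => ?_⟩
    have h1 := key n ((le_max_left _ _).trans hn)
    have hn1 : (1 : ℝ) ≤ n := by exact_mod_cast (le_max_right _ _).trans hn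
    have h2 : (n : ℝ) ^ δ ≤ 1 := Real.rpow_le_one_of_one_le_of_nonpos hn1 hd.le
    have h3 : 0 ≤ (n : ℝ) ^ δ := Real.rpow_nonneg (by linarith) δ
    have h4 : K * (n : ℝ) ^ δ ≤ |K| * 1 :=
      mul_le_mul (le_abs_self K) h2 h3 (abs_nonneg K)
    rw [Real.rpow_zero]
    linarith

end FIN2

theorem t_FIN2 (h1 : S_ONE2) (h2 : S_INV2) (a b a₁ : ℕ) (hb : 1 ≤ b) (hab : Nat.Coprime a b)
    (hne : ¬ (a₁ ≡ a [MOD b])) (hcase : a₁ ≡ 1 [MOD b] ∨ a * a₁ ≡ 1 [MOD b]) (K δ : ℝ)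
    (hδ : δ < 1 / 2) (N : ℕ) :
    ∃ n : ℕ, N ≤ n ∧
        (((Finset.range (n + 1)).filter (fun p => p.Prime ∧ p ≡ a₁ [MOD b])).card : ℝ) +
          K * (n : ℝ) ^ δ <
        (((Finset.range (n + 1)).filter (fun p => p.Prime ∧ p ≡ a [MOD b])).card : ℝ) := by
  have hbz : NeZero b := ⟨by omega⟩
  have hu : IsUnit (a : ZMod b) := (ZMod.isUnit_iff_coprime a b).2 hab
  have hne' : (a₁ : ZMod b) ≠ (a : ZMod b) := by
    intro h
    exact hne ((ZMod.natCast_eq_natCast_iff a₁ a b).1 h)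
  refine FIN2.step a₁ a ?_ K δ hδ N
  rcases hcase with h | h
  · have e : (a₁ : ZMod b) = 1 := by
      have := (ZMod.natCast_eq_natCast_iff a₁ 1 b).2 h
      simpa using this
    rw [e]
    rw [e] at hne'
    exact h1 b (a : ZMod b) hu (Ne.symm hne')
  · have e : (a : ZMod b) * (a₁ : ZMod b) = 1 := by
      have := (ZMod.natCast_eq_natCast_iff (a * a₁) 1 b).2 h
      push_cast at this
      exact this
    have e2 : (a₁ : ZMod b) = (a : ZMod b)⁻¹ := by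
      have h3 := ZMod.mul_inv_of_unit (a : ZMod b) hu
      have h4 : (a : ZMod b) * (a₁ : ZMod b) = (a : ZMod b) * (a : ZMod b)⁻¹ := by rw [e, h3]
      exact hu.mul_left_cancel h4
    have e3 : (a : ZMod b) * (a : ZMod b) ≠ 1 := by
      intro h3
      apply hne'
      exact hu.mul_left_cancel (e.trans h3.symm)
    rw [e2]
    exact h2 b (a : ZMod b) hu e3

end Pool.Agent.K6.H62.PR
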