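import Pool.Agent.K6.H62.PR2.Stm2
import Pool.Agent.K6.H62.PR.INV

set_option autoImplicit false

open Complex Filter Topology

namespace Pool.Agent.K6.H62.PR


open INV in
theorem t_INV2 (h1 : S_STP2) (h2 : S_CNT) (h3 : S_CNJ) (h4 : S_SQR) (h5 : S_LDL)
    (h8 : S_MST) (h9 : S_ENT) (h10 : S_LIO) (h11 : S_GRQ) : S_INV2 := by
  intro b _ a ha haa hn0
  obtain ⟨u, rfl⟩ := ha
  have hui : IsUnit ((u : ZMod b)⁻¹) := by rw [inv_unit]; exact Units.isUnit _
  have hb0 : (b.totient : ℂ) ≠ 0 := by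
    exact_mod_cast (Nat.totient_pos.2 (NeZero.pos b)).ne'
  obtain ⟨θ0, hθ0, hsum⟩ := h1 b (u : ZMod b)⁻¹ (u : ZMod b) hui u.isUnit hn0
    (fun θ _ => Or.inr (rho_real h3 h4 u θ))
  obtain ⟨hr0, C1, hC1⟩ := h2 b (u : ZMod b)⁻¹ (u : ZMod b) hui u.isUnit ⟨θ0, hθ0, hsum⟩
  obtain ⟨M, e, c, C2, hMmer, hMsym, hediff, heb, hMe, hcb, hMc, hcq⟩ :=
    h8 b (ww (u : ZMod b)⁻¹ (u : ZMod b)) (ww_inv u)
  obtain ⟨C3, hC3⟩ := h11 b
  have hrem : ∀ z : ℂ, ∃ h : ℂ → ℂ, AnalyticAt ℂ h z ∧ ∀ᶠ s in 𝓝[≠] z, M s = h s := by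
    intro z
    by_cases hz : 1 / 2 ≤ z.re
    · exact removable_right h4 h5 u M e hediff hMe z hz (hr0 z hz)
    · push Not at hz
      have hz' : 1 / 2 ≤ (1 - z).re := by
        simp only [Complex.sub_re, Complex.one_re]; linarith
      obtain ⟨h, hh1, hh2⟩ := removable_right h4 h5 u M e hediff hMe (1 - z) hz' (hr0 _ hz')
      refine ⟨fun s => h (1 - s), ?_, ?_⟩
      · have h6 : AnalyticAt ℂ (fun s : ℂ => 1 - s) z := analyticAt_const.sub analyticAt_id
        exact AnalyticAt.comp (g := h) hh1 h6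
      · filter_upwards [hMsym z, (tendsto_refl z).eventually hh2] with s hs1 hs2
        rw [← hs1, hs2]
  obtain ⟨g, hg, hMg⟩ := h9 M hrem
  have hgc : ∀ z, ContinuousAt g z := fun z => hg.continuous.continuousAt
  have hgsym : ∀ z, g (1 - z) = g z := by
    intro z
    refine eq_of_punctured (fun s => g (1 - s)) g z ?_ (hgc z) ?_
    · exact (hg.continuous.comp (continuous_const.sub continuous_id)).continuousAt
    · filter_upwards [hMsym z, hMg z, (tendsto_refl z).eventually (hMg (1 - z))] with s s1 s2 s3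
      show g (1 - s) = g s
      rw [← s3, s1, s2]
  -- the bound
  set V : ℝ := ∑ χ : DirichletCharacter ℂ b, ‖vv (u : ZMod b)⁻¹ (u : ZMod b) χ‖ with hV
  set C : ℝ := b.totient * |C1| + V * |C3| + b.totient * (|C3| + |C3|) + |C2| with hCdef
  have hV0 : 0 ≤ V := Finset.sum_nonneg fun χ _ => norm_nonneg _
  have hC0 : 0 ≤ C := by positivity
  have hright : ∀ z : ℂ, 1 / 2 < z.re →
      ‖g z‖ ≤ C * (1 + ‖z‖) ^ 3 * (1 + 1 / |z.re - 1 / 2|) := by
    intro z hz
    have hzp : 0 < z.re - 1 / 2 := by linarith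
    have hev : ∀ᶠ s in 𝓝[≠] z, ‖g s‖ ≤ C * (1 + ‖s‖) ^ 3 * (1 + 1 / |s.re - 1 / 2|) := by
      have ho : IsOpen {s : ℂ | 1 / 2 < s.re} := Complex.continuous_re.isOpen_preimage _ isOpen_Ioi
      have hnear : ∀ᶠ s in 𝓝[≠] z, 1 / 2 < s.re :=
        nhdsWithin_le_nhds (ho.mem_nhds (show 1 / 2 < z.re from hz))
      filter_upwards [hMg z, hMe z (by linarith), hC1 z hz, hnear] with s s1 s2 s3 s4
      have hsp : 0 < s.re - 1 / 2 := by linarith
      obtain ⟨k1, k2⟩ := hC3 s s4
      have hQ : ∑ χ : DirichletCharacter ℂ b, ww (u : ZMod b)⁻¹ (u : ZMod b) χ * ell χ s =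
          (b.totient : ℂ) * QQ (u : ZMod b)⁻¹ (u : ZMod b) s +
          ∑ χ : DirichletCharacter ℂ b, vv (u : ZMod b)⁻¹ (u : ZMod b) χ * ell χ (2 * s) +
          (b.totient : ℂ) * (LSeries (hh (u : ZMod b)⁻¹) s - LSeries (hh (u : ZMod b)) s) := by
        unfold QQ
        field_simp
        ring
      rw [← s1, s2, hQ]
      set X : ℝ := (1 + ‖s‖) ^ 3 with hX
      have hX1 : 1 ≤ X := one_le_pow₀ (by linarith [norm_nonneg s])
      set Y : ℝ := 1 + 1 / |s.re - 1 / 2| with hY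
      have habs : |s.re - 1 / 2| = s.re - 1 / 2 := abs_of_pos hsp
      have hY1 : 1 ≤ Y := by rw [hY, habs]; have := one_div_pos.mpr hsp; linarith
      have b1 : ‖(b.totient : ℂ) * QQ (u : ZMod b)⁻¹ (u : ZMod b) s‖ ≤ b.totient * |C1| * (X * Y) := by
        rw [norm_mul, Complex.norm_natCast]
        have : ‖QQ (u : ZMod b)⁻¹ (u : ZMod b) s‖ ≤ |C1| * (X * Y) := by
          calc _ ≤ C1 * X := s3
            _ ≤ |C1| * X := by gcongr; exact le_abs_self _
            _ ≤ |C1| * (X * Y) := by gcongr; exact le_mul_of_one_le_right (by linarith) hY1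
        calc (b.totient : ℝ) * _ ≤ b.totient * (|C1| * (X * Y)) := by gcongr
          _ = _ := by ring
      have b2 : ‖∑ χ : DirichletCharacter ℂ b, vv (u : ZMod b)⁻¹ (u : ZMod b) χ * ell χ (2 * s)‖ ≤
          V * |C3| * (X * Y) := by
        refine (norm_sum_le _ _).trans ?_
        have : ∀ χ ∈ (Finset.univ : Finset (DirichletCharacter ℂ b)),
            ‖vv (u : ZMod b)⁻¹ (u : ZMod b) χ * ell χ (2 * s)‖ ≤
            ‖vv (u : ZMod b)⁻¹ (u : ZMod b) χ‖ * (|C3| * (X * Y)) := by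
          intro χ _
          rw [norm_mul]
          gcongr
          calc _ ≤ C3 * (1 + 1 / (s.re - 1 / 2)) := k1 χ
            _ ≤ |C3| * Y := by rw [hY, habs]; gcongr; exact le_abs_self _
            _ ≤ |C3| * (X * Y) := by gcongr; exact le_mul_of_one_le_left (by linarith) hX1
        refine (Finset.sum_le_sum this).trans ?_
        rw [← Finset.sum_mul]
        rw [hV]
        exact le_of_eq (by ring)
      have hXY : 1 ≤ X * Y := one_le_mul_of_one_le_of_one_le hX1 hY1
      have b3 : ‖(b.totient : ℂ) * (LSeries (hh (u : ZMod b)⁻¹) s - LSeries (hh (u : ZMod b)) s)‖ ≤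
          b.totient * (|C3| + |C3|) * (X * Y) := by
        rw [norm_mul, Complex.norm_natCast]
        have h7 : ‖LSeries (hh (u : ZMod b)⁻¹) s - LSeries (hh (u : ZMod b)) s‖ ≤ |C3| + |C3| := by
          refine (norm_sub_le _ _).trans ?_
          exact add_le_add ((k2 _).trans (le_abs_self _)) ((k2 _).trans (le_abs_self _))
        calc (b.totient : ℝ) * _ ≤ b.totient * (|C3| + |C3|) := by gcongr
          _ ≤ b.totient * (|C3| + |C3|) * (X * Y) := le_mul_of_one_le_right (by positivity) hXY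
      have b4 : ‖e s‖ ≤ |C2| * (X * Y) := by
        calc _ ≤ C2 := heb s (by linarith)
          _ ≤ |C2| := le_abs_self _
          _ ≤ |C2| * (X * Y) := le_mul_of_one_le_right (abs_nonneg _) hXY
      refine (norm_add_le _ _).trans ?_
      refine (add_le_add ((norm_add_le _ _).trans (add_le_add ((norm_add_le _ _).trans
        (add_le_add b1 b2)) b3)) b4).trans ?_
      rw [hCdef]
      exact le_of_eq (by ring)
    have hl : Tendsto (fun s => ‖g s‖) (𝓝[≠] z) (𝓝 ‖g z‖) :=
      ((hgc z).norm.tendsto).mono_left nhdsWithin_le_nhds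
    have hr : Tendsto (fun s : ℂ => C * (1 + ‖s‖) ^ 3 * (1 + 1 / |s.re - 1 / 2|)) (𝓝[≠] z)
        (𝓝 (C * (1 + ‖z‖) ^ 3 * (1 + 1 / |z.re - 1 / 2|))) := by
      have hne : |z.re - 1 / 2| ≠ 0 := abs_ne_zero.mpr hzp.ne'
      have : ContinuousAt (fun s : ℂ => C * (1 + ‖s‖) ^ 3 * (1 + 1 / |s.re - 1 / 2|)) z := by
        have h8 : ContinuousAt (fun s : ℂ => 1 / |s.re - 1 / 2|) z :=
          continuousAt_const.div (by fun_prop) hne
        exact (by fun_prop : ContinuousAt (fun s : ℂ => C * (1 + ‖s‖) ^ 3) z).mul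
          (continuousAt_const.add h8)
      exact this.tendsto.mono_left nhdsWithin_le_nhds
    exact le_of_tendsto_of_tendsto hl hr hev
  have hbd : ∀ s : ℂ, s.re ≠ 1 / 2 → ‖g s‖ ≤ (8 * C) * (1 + ‖s‖) ^ 3 * (1 + 1 / |s.re - 1 / 2|) := by
    intro s hs
    have hY0 : 0 ≤ 1 + 1 / |s.re - 1 / 2| := by positivity
    have hs0 := norm_nonneg s
    rcases lt_or_gt_of_ne hs with h | h
    · have h' : 1 / 2 < (1 - s).re := by
        simp only [Complex.sub_re, Complex.one_re]; linarith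
      have h6 := hright (1 - s) h'
      rw [hgsym] at h6
      have h7 : |(1 - s).re - 1 / 2| = |s.re - 1 / 2| := by
        rw [← abs_neg (s.re - 1 / 2)]
        congr 1
        simp only [Complex.sub_re, Complex.one_re]; ring
      rw [h7] at h6
      refine h6.trans ?_
      refine mul_le_mul_of_nonneg_right ?_ hY0
      have h8 : ‖1 - s‖ ≤ 1 + ‖s‖ := by
        refine (norm_sub_le _ _).trans ?_
        simp
      have h9 : (1 + ‖1 - s‖) ^ 3 ≤ (2 * (1 + ‖s‖)) ^ 3 := by
        gcongr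
        linarith
      calc C * (1 + ‖1 - s‖) ^ 3 ≤ C * (2 * (1 + ‖s‖)) ^ 3 := by gcongr
        _ = 8 * C * (1 + ‖s‖) ^ 3 := by ring
    · refine (hright s h).trans ?_
      refine mul_le_mul_of_nonneg_right ?_ hY0
      have : 0 ≤ C * (1 + ‖s‖) ^ 3 := by positivity
      nlinarith
  -- the Dirichlet series
  have habsc : LSeries.abscissaOfAbsConv c ≤ ((1 : ℝ) : EReal) := by
    refine LSeries.abscissaOfAbsConv_le_of_forall_lt_LSeriesSummable ?_
    intro y hy
    have hy' : 1 < ((y : ℂ)).re := by simpa using hy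
    have hv := ArithmeticFunction.LSeriesSummable_vonMangoldt hy'
    have hv2 : Summable (fun n => C2 * ‖LSeries.term (fun n => (ArithmeticFunction.vonMangoldt n : ℂ)) (y : ℂ) n‖) :=
      (hv.norm).mul_left C2
    refine Summable.of_norm_bounded hv2 ?_
    intro n
    rcases eq_or_ne n 0 with rfl | hn
    · simp
    · rw [LSeries.term_of_ne_zero hn, LSeries.term_of_ne_zero hn, norm_div, norm_div,
        ← mul_div_assoc]
      gcongr
      refine (hcb n).trans (le_of_eq ?_)
      rw [Complex.norm_real, Real.norm_eq_abs, abs_of_nonneg ArithmeticFunction.vonMangoldt_nonneg]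
  have hlt : LSeries.abscissaOfAbsConv c < ⊤ := lt_of_le_of_lt habsc (EReal.coe_lt_top 1)
  have hgL : ∀ s : ℂ, 1 < s.re → g s = LSeries c s := by
    intro s hs
    have han : AnalyticAt ℂ (LSeries c) s :=
      (LSeries_analyticOnNhd c) s (show LSeries.abscissaOfAbsConv c < (s.re : EReal) from
        lt_of_le_of_lt habsc (by exact_mod_cast hs))
    refine eq_of_punctured g (LSeries c) s (hgc s) han.continuousAt ?_
    have ho : IsOpen {s : ℂ | 1 < s.re} := Complex.continuous_re.isOpen_preimage _ isOpen_Ioi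
    have hnear : ∀ᶠ w in 𝓝[≠] s, 1 < w.re :=
      nhdsWithin_le_nhds (ho.mem_nhds (show 1 < s.re from hs))
    filter_upwards [hMg s, hnear] with w w1 w2
    rw [← w1, hMc w w2]
  have hc1 : c 1 = 0 := by
    have := hcb 1
    simp only [ArithmeticFunction.vonMangoldt_apply_one, mul_zero] at this
    exact norm_le_zero_iff.mp this
  have hlim : Tendsto (fun x : ℝ => g (x : ℂ)) atTop (𝓝 0) := by
    have h6 := LSeries.tendsto_atTop hlt
    rw [hc1] at h6
    refine h6.congr' ?_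
    filter_upwards [eventually_gt_atTop (1 : ℝ)] with x hx
    exact (hgL x (by simpa using hx)).symm
  have hg0 := h10 g (8 * C) hg hbd hlim
  have hc0 : ∀ n ≠ 0, c n = 0 := by
    refine (LSeries_eventually_eq_zero_iff'.mp ?_).resolve_right hlt.ne
    filter_upwards [eventually_gt_atTop (1 : ℝ)] with x hx
    rw [← hgL x (by simpa using hx), hg0]
    rfl
  obtain ⟨q, hq1, hq2, hq3⟩ := Nat.forall_exists_prime_gt_and_eq_mod (u.isUnit) 0
  have hcq' := hcq q (by rw [hq3]; exact u.isUnit)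
  rw [hc0 q hq2.ne_zero, hq3] at hcq'
  have hS : ∑ χ : DirichletCharacter ℂ b, ww (u : ZMod b)⁻¹ (u : ZMod b) χ * χ (u : ZMod b) =
      - (b.totient : ℂ) := by
    have e1 := DirichletCharacter.sum_char_inv_mul_char_eq ℂ (u.isUnit) (u : ZMod b)
    have e2 := DirichletCharacter.sum_char_inv_mul_char_eq ℂ hui (u : ZMod b)
    rw [if_pos rfl] at e1
    rw [if_neg] at e2
    · unfold ww
      simp_rw [sub_mul]
      rw [Finset.sum_sub_distrib, e2, e1, zero_sub]
    · intro h
      apply haa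
      rw [inv_unit] at h
      calc (u : ZMod b) * (u : ZMod b) = ((u⁻¹ : (ZMod b)ˣ) : ZMod b) * (u : ZMod b) := by rw [h]
        _ = 1 := Units.inv_mul u
  rw [hS, neg_neg, ArithmeticFunction.vonMangoldt_apply_prime hq2] at hcq'
  have hlog : (Real.log q : ℂ) ≠ 0 := by
    have : 0 < Real.log q := Real.log_pos (by exact_mod_cast hq2.one_lt)
    exact_mod_cast this.ne'
  exact (mul_ne_zero hb0 hlog) hcq'.symm

end Pool.Agent.K6.H62.PR
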