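import Pool.Agent.K6.H62.PR2.Stm2
import Pool.Agent.K6.H62.PR.ONE

set_option autoImplicit false

/-! Piece ONE of the prime number race theorem (helper1 for helper62). -/

open Complex Filter Topology

namespace Pool.Agent.K6.H62.PR


theorem t_ONE2 (hSTP : S_STP2) (hCNT : S_CNT) (hZER : S_ZER) (hSQR : S_SQR) : S_ONE2 := by
  intro b _ a ha hne hex
  have hsq := (hSQR b a ha).1
  have hφ : 0 < (b.totient : ℝ)⁻¹ := by
    apply inv_pos.2
    exact_mod_cast Nat.totient_pos.2 (Nat.pos_of_ne_zero (NeZero.ne b))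
  have hst := hSTP b 1 a isUnit_one ha hex (by
    intro θ hθ
    have h0 : 0 ≤ (rho 1 a (θ : ℂ)).re := by
      rw [ONE.re_rho]
      apply add_nonneg
      · exact mul_nonneg hφ.le (Finset.sum_nonneg fun χ _ => ONE.term_nonneg a _ χ)
      · split_ifs
        · have := hsq.1
          positivity
        · exact le_rfl
    rcases h0.lt_or_eq with h | h
    · exact Or.inl h
    · right
      obtain ⟨h1, h2⟩ := ONE.zero_terms a hsq.1 (θ : ℂ) h.symm
      unfold rho
      have h3 : ∑ χ : DirichletCharacter ℂ b, ww 1 a χ * (analyticOrderNatAt χ.LFunction (θ : ℂ) : ℂ) = 0 := by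
        apply Finset.sum_eq_zero
        intro χ _
        rcases mul_eq_zero.1 (h1 χ) with h | h
        · have : χ a⁻¹ = 1 := ONE.eq_one χ _ (by linarith)
          unfold ww
          rw [this]
          simp
        · have : analyticOrderNatAt χ.LFunction (θ : ℂ) = 0 := by exact_mod_cast h
          rw [this]; simp
      rw [h3, mul_zero, zero_add]
      split_ifs with hz
      · rw [hsq.2 (h2 hz)]; simp
      · rfl)
  obtain ⟨hz0, -⟩ := hCNT b 1 a isUnit_one ha hst
  -- a character with `χ a⁻¹ ≠ 1`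
  have hne' : a⁻¹ ≠ 1 := by
    intro h
    apply hne
    have h1 := ZMod.mul_inv_of_unit a ha
    rw [h, mul_one] at h1
    exact h1
  obtain ⟨χ, hχ⟩ : ∃ χ : DirichletCharacter ℂ b, χ a⁻¹ ≠ 1 := by
    exact MulChar.exists_apply_ne_one_of_hasEnoughRootsOfUnity (ZMod b) ℂ hne'
  have hχ1 : χ ≠ 1 := by
    rintro rfl
    apply hχ
    have hu : IsUnit a⁻¹ := by
      obtain ⟨u, rfl⟩ := ha
      rw [ZMod.inv_coe_unit]
      exact Units.isUnit _
    exact MulChar.one_apply hu
  obtain ⟨z, hz1, -, -, hz4⟩ := hZER b χ hχ1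
  have h5 : (rho 1 a z).re = 0 := by rw [hz0 z hz1]; simp
  obtain ⟨h6, -⟩ := ONE.zero_terms a hsq.1 z h5
  rcases mul_eq_zero.1 (h6 χ) with h | h
  · exact hχ (ONE.eq_one χ _ (by linarith))
  · have : analyticOrderNatAt χ.LFunction z = 0 := by exact_mod_cast h
    omega

end Pool.Agent.K6.H62.PR
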