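import Pool.Agent.K6.H62.PR2.Stm2

set_option autoImplicit false

open Complex Filter Topology

namespace Pool.Agent.K6.H62.PR

theorem t_STB2 (hL : S_LND) : S_STB2 := by
  intro d n0 δ θ E Q h hd hθ hδ hsum hE hh hQ hF
  have hop : IsOpen {s : ℂ | 0 < s.re} := isOpen_lt continuous_const Complex.continuous_re
  have hop2 : IsOpen {s : ℂ | δ < s.re} := isOpen_lt continuous_const Complex.continuous_re
  have hpos : ∀ᶠ s : ℂ in 𝓝 (θ : ℂ), 0 < s.re := hop.mem_nhds (by simpa using hθ)
  have hpos2 : ∀ᶠ s : ℂ in 𝓝 (θ : ℂ), δ < s.re := hop2.mem_nhds (by simpa using hδ)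
  have hQ' : ∀ᶠ s in 𝓝 (θ : ℂ), s ≠ (θ : ℂ) → Q s = h s :=
    eventually_nhdsWithin_iff.mp hQ
  have hha : ∀ᶠ s in 𝓝 (θ : ℂ), AnalyticAt ℂ h s := hh.eventually_analyticAt
  obtain ⟨r, hr, hball⟩ := Metric.eventually_nhds_iff_ball.mp (hpos.and (hQ'.and (hha.and (hF.and hpos2))))
  have hhd : DifferentiableOn ℂ h (Metric.ball (θ : ℂ) r) := fun s hs =>
    (hball s hs).2.2.1.differentiableAt.differentiableWithinAt
  obtain ⟨H, hH⟩ := hhd.isExactOn_ball
  set F : ℂ → ℂ := fun s => s * LSeries (cc d) s + E s with hFdef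
  set U : Set ℂ := Metric.ball (θ : ℂ) r ∩ {s : ℂ | θ < s.re} with hU
  have hUo : IsOpen U := Metric.isOpen_ball.inter (isOpen_lt continuous_const Complex.continuous_re)
  have hUc : IsPreconnected U :=
    ((convex_ball (θ : ℂ) r).inter (convex_halfSpace_re_gt θ)).isPreconnected
  have hFU : ∀ s ∈ U, HasDerivAt F (h s) s := by
    intro s hs
    have hs1 := hball s hs.1
    have hne : s ≠ (θ : ℂ) := by
      intro h0
      have := hs.2
      rw [h0] at this
      simp at this
    have := hs1.2.2.2.1 hs.2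
    rw [hs1.2.1 hne] at this
    exact this
  obtain ⟨c, hc⟩ := hUo.exists_eq_add_of_deriv_eq (f := F) (g := H) hUc
    (fun s hs => (hFU s hs).differentiableAt.differentiableWithinAt)
    (fun s hs => (hH s hs.1).differentiableAt.differentiableWithinAt)
    (fun s hs => by rw [(hFU s hs).deriv, (hH s hs.1).deriv])
  refine hL d n0 θ r (fun s => (H s + c - E s) / s) hd hsum hr ?_ ?_
  · intro s hs
    have hs0 : 0 < s.re := (hball s hs).1
    have hne : s ≠ 0 := by
      rintro rfl
      simp at hs0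
    have h1 : DifferentiableAt ℂ H s := (hH s hs).differentiableAt
    have h2 : DifferentiableAt ℂ E s := hE.differentiableAt (hop2.mem_nhds (hball s hs).2.2.2.2)
    exact (((h1.add_const c).sub h2).div differentiableAt_id hne).differentiableWithinAt
  · intro s hs hs2
    have hs0 : 0 < s.re := (hball s hs).1
    have hne : s ≠ 0 := by
      rintro rfl
      simp at hs0
    have h1 : F s = H s + c := hc ⟨hs, hs2⟩
    have h2 : F s = s * LSeries (cc d) s + E s := rfl
    rw [div_eq_iff hne, ← h1, h2]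
    ring

end Pool.Agent.K6.H62.PR
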