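import Pool.Agent.K6.H62.PR2.Stm2
import Pool.Agent.K6.H62.PR.STP


set_option autoImplicit false

open Complex Filter Topology

namespace Pool.Agent.K6.H62.PR

namespace STP2

/-- the correction term -/
noncomputable def qq (K δ : ℝ) (n : ℕ) : ℝ := K * (n : ℝ) ^ δ / n

theorem qq_summable (K δ : ℝ) (s : ℂ) (hs : δ < s.re) : LSeriesSummable (cc (qq K δ)) s := by
  refine LSeriesSummable_of_le_const_mul_rpow (x := δ) hs ⟨|K|, fun n hn => ?_⟩
  have hn' : (0 : ℝ) < n := by exact_mod_cast Nat.pos_of_ne_zero hn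
  unfold cc qq
  rw [Complex.norm_real, Real.norm_eq_abs, abs_div, abs_mul, Nat.abs_cast,
    abs_of_nonneg (Real.rpow_nonneg hn'.le δ), Real.rpow_sub_one hn'.ne', mul_div_assoc]

theorem cc_add (c : ℕ → ℝ) (K δ : ℝ) :
    cc (fun n => DD c n / n + qq K δ n) = dd c + cc (qq K δ) := by
  funext n
  simp only [cc, dd, Pi.add_apply]
  push_cast
  rfl

end STP2

/-- piece STP -/
theorem t_STP2 (h1 : S_ABL) (h2 : S_QFF) (h3 : S_IDT) (h4 : S_QLC) (h5 : S_STA2) (h6 : S_STB2) :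
    S_STP2 := by
  intro b _ a1 a ha1 ha hev hrho
  obtain ⟨K, δ, n0, hδ0, hδ, hn0⟩ := hev
  set c : ℕ → ℝ := cf a1 a with hc
  have hcb : ∀ n, |c n| ≤ 1 := STP.cf_abs a1 a
  have hc0 : c 0 = 0 := STP.cf_zero a1 a
  obtain ⟨E, hE, -, hAbel⟩ := h1 c hcb hc0
  by_cases hex : ∃ σ0 : ℝ, σ0 < 1 / 2 ∧ LSeriesSummable (dd c) (σ0 : ℂ)
  · obtain ⟨σ0, hσ0, hs⟩ := hex
    refine ⟨σ0, hσ0, fun σ hσ => hs.of_re_le_re ?_⟩
    rw [Complex.ofReal_re, Complex.ofReal_re]
    exact hσ.le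
  exfalso
  push Not at hex
  set A : Set ℝ := {σ : ℝ | LSeriesSummable (dd c) (σ : ℂ)} with hA
  have h2A : (2 : ℝ) ∈ A := by
    show LSeriesSummable (dd c) ((2 : ℝ) : ℂ)
    refine LSeriesSummable_of_bounded_of_one_lt_re (m := 1) (fun n hn => STP.dd_norm hcb hc0 n hn) ?_
    rw [Complex.ofReal_re]
    norm_num
  have hlb : ∀ σ ∈ A, 1 / 2 ≤ σ := fun σ hσ => not_lt.1 fun h => hex σ h hσ
  set θ : ℝ := sInf A with hθ
  have hθ1 : 1 / 2 ≤ θ := le_csInf ⟨2, h2A⟩ hlb
  have hbdd : BddBelow A := ⟨1 / 2, hlb⟩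
  have hθ0 : 0 < θ := by linarith
  have hsum : ∀ σ : ℝ, θ < σ → LSeriesSummable (dd c) (σ : ℂ) := by
    intro σ hσ
    obtain ⟨σ', hσ', hlt⟩ := exists_lt_of_csInf_lt ⟨2, h2A⟩ hσ
    refine LSeriesSummable.of_re_le_re ?_ hσ'
    rw [Complex.ofReal_re, Complex.ofReal_re]
    exact hlt.le
  set U : Set ℂ := {s : ℂ | θ < s.re} with hUdef
  have hU : IsOpen U := isOpen_lt continuous_const Complex.continuous_re
  have habs : LSeries.abscissaOfAbsConv (dd c) ≤ (θ : EReal) :=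
    LSeries.abscissaOfAbsConv_le_of_forall_lt_LSeriesSummable hsum
  set F : ℂ → ℂ := fun s => s * LSeries (dd c) s + E s with hFdef
  have hF : DifferentiableOn ℂ F U := by
    refine DifferentiableOn.add (DifferentiableOn.mul differentiableOn_id ?_) ?_
    · refine (LSeries_differentiableOn (dd c)).mono fun s hs => ?_
      exact lt_of_le_of_lt habs (by exact_mod_cast hs)
    · exact hE.mono fun s hs => lt_trans hθ0 hs
  have hder : ∀ s : ℂ, 1 < s.re → deriv F s = QQ a1 a s := by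
    intro s hs
    have hU1 : IsOpen {s : ℂ | 1 < s.re} := isOpen_lt continuous_const Complex.continuous_re
    have e1 : F =ᶠ[𝓝 s] LSeries (cc c) := by
      filter_upwards [hU1.mem_nhds hs] with t ht
      rw [hFdef]
      exact (hAbel t ht).symm
    rw [e1.deriv_eq]
    exact (h2 b a1 a ha1 ha s hs).deriv
  have hmer : MeromorphicOn (QQ a1 a) U := by
    intro z hz
    obtain ⟨h, hh, hq⟩ := h4 b a1 a ha1 ha z (hθ1.trans (le_of_lt hz))
    exact STP.mero hh hq
  set z0 : ℂ := ((θ + 2 : ℝ) : ℂ) with hz0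
  have hz0U : z0 ∈ U := by
    show θ < z0.re
    rw [hz0, Complex.ofReal_re]
    linarith
  have hpre : IsPreconnected U := (convex_halfSpace_re_gt θ).isPreconnected
  have hid := h3 U (deriv F) (QQ a1 a) z0 hU hpre (hF.deriv hU) hmer hz0U (by
    have hU1 : IsOpen {s : ℂ | 1 < s.re} := isOpen_lt continuous_const Complex.continuous_re
    have hz1 : z0 ∈ {s : ℂ | 1 < s.re} := by
      show 1 < z0.re
      rw [hz0, Complex.ofReal_re]
      linarith
    filter_upwards [hU1.mem_nhds hz1] with s hs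
    exact hder s hs)
  obtain ⟨h, hh, hq⟩ := h4 b a1 a ha1 ha (θ : ℂ) (by rw [Complex.ofReal_re]; exact hθ1)
  have hnear := STP.near F (QQ a1 a) h θ (rho a1 a (θ : ℂ)) hF hid hh hq
  set d : ℕ → ℝ := fun n => DD c n / n + STP2.qq K δ n with hd
  have hcd : cc d = dd c + cc (STP2.qq K δ) := STP2.cc_add c K δ
  have hδθ : δ < θ := by linarith
  have hnn : ∀ n, n0 ≤ n → 0 ≤ d n := fun n hn => by
    have := div_nonneg (hn0 n hn) (Nat.cast_nonneg (α := ℝ) n)
    rw [add_div] at this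
    exact this
  have hsum' : ∀ s : ℂ, θ < s.re → LSeriesSummable (dd c) s := fun s hs =>
    (hsum s.re hs).of_re_le_re (by rw [Complex.ofReal_re])
  have hsumd : ∀ σ : ℝ, θ < σ → LSeriesSummable (cc d) (σ : ℂ) := by
    intro σ hσ
    rw [hcd]
    exact (hsum σ hσ).add (STP2.qq_summable K δ _ (by rw [Complex.ofReal_re]; linarith))
  set E2 : ℂ → ℂ := fun s => E s - s * LSeries (cc (STP2.qq K δ)) s with hE2def
  have habs2 : LSeries.abscissaOfAbsConv (cc (STP2.qq K δ)) ≤ (δ : EReal) :=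
    LSeries.abscissaOfAbsConv_le_of_forall_lt_LSeriesSummable fun σ hσ =>
      STP2.qq_summable K δ _ (by rw [Complex.ofReal_re]; exact hσ)
  have hE2 : DifferentiableOn ℂ E2 {s : ℂ | δ < s.re} := by
    refine DifferentiableOn.sub (hE.mono fun s hs => lt_of_le_of_lt hδ0 hs)
      (DifferentiableOn.mul differentiableOn_id ?_)
    refine (LSeries_differentiableOn (cc (STP2.qq K δ))).mono fun s hs => ?_
    exact lt_of_le_of_lt habs2 (by exact_mod_cast hs)
  have hFF : ∀ s ∈ U, (fun s => s * LSeries (cc d) s + E2 s) s = F s := by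
    intro s hs
    have e1 : LSeries (cc d) s = LSeries (dd c) s + LSeries (cc (STP2.qq K δ)) s := by
      rw [hcd]
      exact LSeries_add (hsum' s hs) (STP2.qq_summable K δ s (lt_trans hδθ hs))
    simp only [hFdef, hE2def, e1]
    ring
  have hnear2 : ∀ᶠ s in 𝓝 (θ : ℂ), θ < s.re →
      HasDerivAt (fun s => s * LSeries (cc d) s + E2 s) (QQ a1 a s) s := by
    filter_upwards [hnear] with s hs hs2
    refine (hs hs2).congr_of_eventuallyEq ?_
    filter_upwards [hU.mem_nhds hs2] with t ht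
    exact hFF t ht
  rcases hrho θ hθ1 with hpos | hzero
  · exact h5 d n0 δ θ E2 (QQ a1 a) h (rho a1 a (θ : ℂ)) hnn hθ0 hδθ hsumd hE2 hh hq
      hnear2 hpos
  · rw [hzero] at hq
    obtain ⟨ε, hε, hs⟩ := h6 d n0 δ θ E2 (QQ a1 a) h hnn hθ0 hδθ hsumd hE2 hh (by
      filter_upwards [hq] with s hs
      rw [hs, zero_div, zero_add]) hnear2
    set σ' : ℝ := max (θ - ε) ((θ + δ) / 2) with hσ'
    have hσ1 : σ' < θ := max_lt (by linarith) (by linarith)
    have hσ2 : δ < σ' := lt_of_lt_of_le (by linarith) (le_max_right _ _)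
    have hs' : LSeriesSummable (cc d) (σ' : ℂ) := hs.of_re_le_re (by
      rw [Complex.ofReal_re, Complex.ofReal_re]
      exact le_max_left _ _)
    have hs'' : LSeriesSummable (dd c) (σ' : ℂ) := by
      have e2 : dd c = cc d - cc (STP2.qq K δ) := by rw [hcd, add_sub_cancel_right]
      rw [e2]
      exact hs'.sub (STP2.qq_summable K δ _ (by rw [Complex.ofReal_re]; exact hσ2))
    have h9 : θ ≤ σ' := csInf_le hbdd hs''
    linarith

end Pool.Agent.K6.H62.PR
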