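import Pool.Agent.K6.H62.PR.Stm

set_option autoImplicit false

/-!
Statements for the version with power-size leads (MP_c04f8f_nt).
-/

open Complex Filter Topology

namespace Pool.Agent.K6.H62.PR

/-- STA2: a positive residue is impossible -/
def S_STA2 : Prop :=
  ∀ (d : ℕ → ℝ) (n0 : ℕ) (δ θ : ℝ) (E Q h : ℂ → ℂ) (ρ : ℂ), (∀ n, n0 ≤ n → 0 ≤ d n) → 0 < θ →
    δ < θ →
    (∀ σ : ℝ, θ < σ → LSeriesSummable (cc d) (σ : ℂ)) →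
    DifferentiableOn ℂ E {s : ℂ | δ < s.re} → AnalyticAt ℂ h (θ : ℂ) →
    (∀ᶠ s in 𝓝[≠] (θ : ℂ), Q s = ρ / (s - θ) + h s) →
    (∀ᶠ s in 𝓝 (θ : ℂ), θ < s.re → HasDerivAt (fun s => s * LSeries (cc d) s + E s) (Q s) s) →
    ¬ (0 < ρ.re)

/-- STB2: without residue the abscissa of convergence is smaller -/
def S_STB2 : Prop :=
  ∀ (d : ℕ → ℝ) (n0 : ℕ) (δ θ : ℝ) (E Q h : ℂ → ℂ), (∀ n, n0 ≤ n → 0 ≤ d n) → 0 < θ → δ < θ →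
    (∀ σ : ℝ, θ < σ → LSeriesSummable (cc d) (σ : ℂ)) →
    DifferentiableOn ℂ E {s : ℂ | δ < s.re} → AnalyticAt ℂ h (θ : ℂ) →
    (∀ᶠ s in 𝓝[≠] (θ : ℂ), Q s = h s) →
    (∀ᶠ s in 𝓝 (θ : ℂ), θ < s.re → HasDerivAt (fun s => s * LSeries (cc d) s + E s) (Q s) s) →
    ∃ ε : ℝ, 0 < ε ∧ LSeriesSummable (cc d) ((θ - ε : ℝ) : ℂ)

/-- the difference is eventually at least `-K n^δ` for some `δ < 1/2` -/
def Low {b : ℕ} (a1 a : ZMod b) : Prop :=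
  ∃ (K δ : ℝ) (n0 : ℕ), 0 ≤ δ ∧ δ < 1 / 2 ∧
    ∀ n, n0 ≤ n → 0 ≤ DD (cf a1 a) n + K * (n : ℝ) ^ δ

/-- STP2: the lower bound gives convergence to the left of `1/2` -/
def S_STP2 : Prop :=
  ∀ (b : ℕ) [NeZero b] (a1 a : ZMod b), IsUnit a1 → IsUnit a → Low a1 a →
    (∀ θ : ℝ, 1 / 2 ≤ θ → 0 < (rho a1 a (θ : ℂ)).re ∨ rho a1 a (θ : ℂ) = 0) →
    ∃ θ0 : ℝ, θ0 < 1 / 2 ∧ ∀ σ : ℝ, θ0 < σ → LSeriesSummable (dd (cf a1 a)) (σ : ℂ)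

/-- ONE2: the class `1` -/
def S_ONE2 : Prop :=
  ∀ (b : ℕ) [NeZero b] (a : ZMod b), IsUnit a → a ≠ 1 → ¬ Low 1 a

/-- INV2: the classes `a` and `a⁻¹` -/
def S_INV2 : Prop :=
  ∀ (b : ℕ) [NeZero b] (a : ZMod b), IsUnit a → a * a ≠ 1 → ¬ Low a⁻¹ a

end Pool.Agent.K6.H62.PR
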